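import Pool.Agent.H.MP_3498ef_gt.F

set_option autoImplicit false

namespace Pool.Agent.Results.MP_3498ef_gt.No

/-- Hilbert distance: with `I = x - s(y - x)` and `J = x + t(y - x)` the two ends of the chord,
`d = (1/2) log (|Iy| |xJ| / (|Ix| |yJ|)) = (1/2) log ((1 + s) t / (s (t - 1)))`; it is `0` if `x = y`. -/
noncomputable def hilbertDist (K : Set (ℝ × ℝ)) (x y : ℝ × ℝ) : ℝ :=
  (1 / 2) * Real.log
    (((1 + sSup {s : ℝ | 0 ≤ s ∧ x - s • (y - x) ∈ K}) *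
        sSup {t : ℝ | 0 ≤ t ∧ x + t • (y - x) ∈ K}) /
      (sSup {s : ℝ | 0 ≤ s ∧ x - s • (y - x) ∈ K} *
        (sSup {t : ℝ | 0 ≤ t ∧ x + t • (y - x) ∈ K} - 1)))

/-- distance from a point to the chord `m ∩ K` -/
noncomputable def lineDist (K : Set (ℝ × ℝ)) (x : ℝ × ℝ) (m : AffineSubspace ℝ (ℝ × ℝ)) : ℝ :=
  sInf (hilbertDist K x '' {y | y ∈ m ∧ y ∈ K})

theorem result : ∃ (K : Set (ℝ × ℝ)) (m : AffineSubspace ℝ (ℝ × ℝ)) (F : ℝ × ℝ),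
    IsOpen K ∧ Bornology.IsBounded K ∧ Convex ℝ K ∧ StrictConvex ℝ (closure K) ∧
    (¬ ∃ f : (ℝ × ℝ) ≃ᵃ[ℝ] (ℝ × ℝ), K = f '' {p : ℝ × ℝ | p.1 ^ 2 + p.2 ^ 2 < 1}) ∧
    Module.finrank ℝ m.direction = 1 ∧ (∃ y, y ∈ m ∧ y ∈ K) ∧ F ∈ K ∧ F ∉ m ∧
    ∃ a b c d e f : ℝ, ¬ (a = 0 ∧ b = 0 ∧ c = 0) ∧
      {x | x ∈ K ∧ hilbertDist K F x = lineDist K x m} =
        K ∩ {x | a * x.1 ^ 2 + b * x.1 * x.2 + c * x.2 ^ 2 + d * x.1 + e * x.2 + f = 0} := by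
  obtain ⟨δ, h⟩ := Pool.Agent.H.MP_3498ef_gt.ex_good
  have G := Pool.Agent.H.MP_3498ef_gt.gauge h
  have hm : ∀ y : ℝ × ℝ, y ∈ AffineSubspace.mk' ((4 / 5, 0) : ℝ × ℝ) (ℝ ∙ ((0, 1) : ℝ × ℝ)) ↔
      y.1 = 4 / 5 := by
    intro y
    rw [AffineSubspace.mem_mk', Submodule.mem_span_singleton]
    constructor
    · rintro ⟨a, ha⟩
      have := congrArg Prod.fst ha
      simp at this; linarith
    · intro hy; exact ⟨y.2, by ext <;> simp [hy]⟩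
  refine ⟨Pool.Agent.H.MP_3498ef_gt.Om (Pool.Agent.H.MP_3498ef_gt.gg δ),
    AffineSubspace.mk' ((4 / 5, 0) : ℝ × ℝ) (ℝ ∙ ((0, 1) : ℝ × ℝ)), 0, G.isOpen, G.bdd, G.convex,
    G.strict, fun ⟨f, hf⟩ => Pool.Agent.H.MP_3498ef_gt.not_ellipse h f hf, ?_,
    ⟨(4 / 5, 0), (hm _).2 rfl, G.h0⟩, ?_, ?_, -16, 0, 9, 40, 0, -16, by norm_num, ?_⟩
  · rw [AffineSubspace.direction_mk']; exact finrank_span_singleton (by simp)
  · show Pool.Agent.H.MP_3498ef_gt.gg δ 0 < 1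
    rw [G.zero]; norm_num
  · rw [hm]; norm_num
  · ext x
    simp only [Set.mem_setOf_eq, Set.mem_inter_iff]
    refine and_congr_right fun hx => ?_
    have k := Pool.Agent.H.MP_3498ef_gt.conic h x hx
    unfold lineDist
    simp only [hm]
    refine Iff.trans k ?_
    constructor <;> intro e <;> linarith

end Pool.Agent.Results.MP_3498ef_gt.No
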